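import Pool.Agent.H65.CRZ.TL

/-!
# CRZ, row BK: the argument on a horizontal segment
-/

set_option autoImplicit false

open Set Filter Topology MeasureTheory Complex

namespace Pool.Agent.H77.CRZ

open Pool.Agent.H65.CRZ

/-- the argument does not change by more than `π` in the right half plane -/
theorem bk_pos (g g' : ℝ → ℂ) (a b : ℝ) (hab : a ≤ b)
    (hg : ∀ x ∈ Icc a b, HasDerivAt g (g' x) x) (hc : ContinuousOn g' (Icc a b))
    (h0 : ∀ x ∈ Icc a b, g x ≠ 0) (hu : ∀ x ∈ Icc a b, 0 ≤ (g x).re) :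
    |∫ x in a..b, (g' x / g x).im| ≤ Real.pi := by
  have hgc : ContinuousOn g (Icc a b) := fun x hx => (hg x hx).continuousAt.continuousWithinAt
  have hs : ∀ x ∈ Icc a b, g x ∈ slitPlane := by
    intro x hx
    rcases (hu x hx).lt_or_eq with h | h
    · exact Or.inl h
    · right
      intro h2
      exact h0 x hx (Complex.ext h.symm h2)
  have h1 : ∀ x ∈ uIcc a b, HasDerivAt (fun x => (Complex.log (g x)).im) (g' x / g x).im x := by
    intro x hx
    rw [uIcc_of_le hab] at hx
    exact Complex.imCLM.hasFDerivAt.comp_hasDerivAt x ((hg x hx).clog_real (hs x hx))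
  have h2 : IntervalIntegrable (fun x => (g' x / g x).im) volume a b := by
    apply ContinuousOn.intervalIntegrable
    rw [uIcc_of_le hab]
    exact Complex.continuous_im.comp_continuousOn (hc.div hgc h0)
  rw [intervalIntegral.integral_eq_sub_of_hasDerivAt h1 h2, Complex.log_im, Complex.log_im]
  have h3 := Complex.abs_arg_le_pi_div_two_iff.2 (hu a (left_mem_Icc.2 hab))
  have h4 := Complex.abs_arg_le_pi_div_two_iff.2 (hu b (right_mem_Icc.2 hab))
  have h5 := abs_sub (arg (g b)) (arg (g a))
  linarith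

theorem bk_base (g g' : ℝ → ℂ) (a b : ℝ) (hab : a ≤ b)
    (hg : ∀ x ∈ Icc a b, HasDerivAt g (g' x) x) (hc : ContinuousOn g' (Icc a b))
    (h0 : ∀ x ∈ Icc a b, g x ≠ 0) (hu : ∀ x ∈ Ioo a b, (g x).re ≠ 0) :
    |∫ x in a..b, (g' x / g x).im| ≤ Real.pi := by
  rcases hab.eq_or_lt with rfl | hlt
  · simpa using Real.pi_pos.le
  have hgc : ContinuousOn g (Icc a b) := fun x hx => (hg x hx).continuousAt.continuousWithinAt
  have hrc : ContinuousOn (fun x => (g x).re) (Icc a b) :=
    Complex.continuous_re.comp_continuousOn hgc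
  obtain ⟨m, hm1, hm2⟩ := exists_between hlt
  have hz : ∀ x ∈ Icc a b, (0 : ℝ) ∈ uIcc (g x).re (g m).re → (g x).re ≠ 0 → False := by
    intro x hx h3 h4
    have hsub : uIcc x m ⊆ Icc a b := by
      intro y hy
      rcases le_total x m with h | h
      · rw [uIcc_of_le h] at hy
        exact ⟨hx.1.trans hy.1, hy.2.trans hm2.le⟩
      · rw [uIcc_of_ge h] at hy
        exact ⟨hm1.le.trans hy.1, hy.2.trans hx.2⟩
    obtain ⟨z, hz1, hz2⟩ := intermediate_value_uIcc (hrc.mono hsub) h3
    have hzx : z ≠ x := by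
      rintro rfl
      exact h4 hz2
    refine hu z ?_ hz2
    rcases le_total x m with h | h
    · rw [uIcc_of_le h] at hz1
      exact ⟨lt_of_le_of_lt hx.1 (lt_of_le_of_ne hz1.1 hzx.symm), lt_of_le_of_lt hz1.2 hm2⟩
    · rw [uIcc_of_ge h] at hz1
      exact ⟨lt_of_lt_of_le hm1 hz1.1, lt_of_lt_of_le (lt_of_le_of_ne hz1.2 hzx) hx.2⟩
  rcases lt_or_gt_of_ne (hu m ⟨hm1, hm2⟩) with h | h
  · have h1 := bk_pos (fun x => -g x) (fun x => -g' x) a b hab (fun x hx => (hg x hx).neg)
      hc.neg (fun x hx => neg_ne_zero.2 (h0 x hx)) (fun x hx => by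
        show 0 ≤ (-g x).re
        rw [Complex.neg_re]
        by_contra hcon
        have h5 : 0 < (g x).re := by linarith
        exact hz x hx (mem_uIcc.2 (Or.inr ⟨h.le, h5.le⟩)) h5.ne')
    simpa using h1
  · refine bk_pos g g' a b hab hg hc h0 fun x hx => ?_
    by_contra hcon
    have h5 : (g x).re < 0 := lt_of_not_ge hcon
    exact hz x hx (mem_uIcc.2 (Or.inl ⟨h5.le, h.le⟩)) h5.ne

theorem bk_cnt (g g' : ℝ → ℂ) (S : Finset ℝ) : ∀ (a b : ℝ), a ≤ b →
    (∀ x ∈ Icc a b, HasDerivAt g (g' x) x) → ContinuousOn g' (Icc a b) →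
    (∀ x ∈ Icc a b, g x ≠ 0) → (∀ x ∈ Ioo a b, (g x).re = 0 → x ∈ S) →
    |∫ x in a..b, (g' x / g x).im| ≤ Real.pi * (S.card + 1) := by
  classical
  induction S using Finset.strongInduction with
  | H S ih =>
    intro a b hab hg hc h0 hS
    by_cases hex : ∃ z ∈ Ioo a b, (g z).re = 0
    · obtain ⟨z, hz, hz0⟩ := hex
      have hzS := hS z hz hz0
      have hs1 : S.filter (· < z) ⊂ S := by
        refine (Finset.filter_subset _ _).ssubset_of_ne fun h => ?_
        have h9 : z ∈ S.filter (· < z) := by rw [h]; exact hzS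
        exact lt_irrefl z (Finset.mem_filter.1 h9).2
      have hs2 : S.filter (z < ·) ⊂ S := by
        refine (Finset.filter_subset _ _).ssubset_of_ne fun h => ?_
        have h9 : z ∈ S.filter (z < ·) := by rw [h]; exact hzS
        exact lt_irrefl z (Finset.mem_filter.1 h9).2
      have hsub1 : Icc a z ⊆ Icc a b := Icc_subset_Icc_right hz.2.le
      have hsub2 : Icc z b ⊆ Icc a b := Icc_subset_Icc_left hz.1.le
      have h1 := ih _ hs1 a z hz.1.le (fun x hx => hg x (hsub1 hx)) (hc.mono hsub1)
        (fun x hx => h0 x (hsub1 hx)) (fun x hx h => Finset.mem_filter.2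
          ⟨hS x ⟨hx.1, hx.2.trans hz.2⟩ h, hx.2⟩)
      have h2 := ih _ hs2 z b hz.2.le (fun x hx => hg x (hsub2 hx)) (hc.mono hsub2)
        (fun x hx => h0 x (hsub2 hx)) (fun x hx h => Finset.mem_filter.2
          ⟨hS x ⟨hz.1.trans hx.1, hx.2⟩ h, hx.1⟩)
      have hcont : ContinuousOn (fun x => (g' x / g x).im) (Icc a b) :=
        Complex.continuous_im.comp_continuousOn (hc.div
          (fun x hx => (hg x hx).continuousAt.continuousWithinAt) h0)
      have hi1 : IntervalIntegrable (fun x => (g' x / g x).im) volume a z := by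
        apply ContinuousOn.intervalIntegrable
        rw [uIcc_of_le hz.1.le]
        exact hcont.mono hsub1
      have hi2 : IntervalIntegrable (fun x => (g' x / g x).im) volume z b := by
        apply ContinuousOn.intervalIntegrable
        rw [uIcc_of_le hz.2.le]
        exact hcont.mono hsub2
      rw [← intervalIntegral.integral_add_adjacent_intervals hi1 hi2]
      have hcard : (S.filter (· < z)).card + (S.filter (z < ·)).card + 1 ≤ S.card := by
        have hd : Disjoint (S.filter (· < z)) (S.filter (z < ·)) := by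
          rw [Finset.disjoint_left]
          intro x hx hx'
          exact lt_asymm (Finset.mem_filter.1 hx).2 (Finset.mem_filter.1 hx').2
        rw [← Finset.card_union_of_disjoint hd]
        refine Nat.succ_le_of_lt (Finset.card_lt_card ?_)
        refine (Finset.ssubset_iff_of_subset (Finset.union_subset (Finset.filter_subset _ _)
          (Finset.filter_subset _ _))).2 ⟨z, hzS, fun h => ?_⟩
        rcases Finset.mem_union.1 h with h | h
        · exact lt_irrefl z (Finset.mem_filter.1 h).2
        · exact lt_irrefl z (Finset.mem_filter.1 h).2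
      have hcard' : ((S.filter (· < z)).card : ℝ) + (S.filter (z < ·)).card + 1 ≤ S.card := by
        exact_mod_cast hcard
      calc _ ≤ |∫ x in a..z, (g' x / g x).im| + |∫ x in z..b, (g' x / g x).im| := abs_add_le _ _
        _ ≤ Real.pi * ((S.filter (· < z)).card + 1) + Real.pi * ((S.filter (z < ·)).card + 1) :=
          add_le_add h1 h2
        _ = Real.pi * (((S.filter (· < z)).card : ℝ) + (S.filter (z < ·)).card + 1 + 1) := by ring
        _ ≤ Real.pi * (S.card + 1) :=
          mul_le_mul_of_nonneg_left (by linarith) Real.pi_pos.le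
    · push Not at hex
      refine (bk_base g g' a b hab hg hc h0 hex).trans ?_
      have : (0 : ℝ) ≤ S.card := Nat.cast_nonneg _
      nlinarith [Real.pi_pos]

theorem pf_BK (h1 : T_JN) : T_BK := by
  intro f c h r R M U hr hrR hUo hUb hd hM hf0 hnz
  have hlogR : 0 < Real.log (R / r) := Real.log_pos ((one_lt_div hr).2 hrR)
  -- the symmetrised function
  let F : ℂ → ℂ := fun z => (f (z + h * I) + (starRingEnd ℂ) (f ((starRingEnd ℂ) z + h * I))) / 2
  let V : Set ℂ := {z : ℂ | z + h * I ∈ U ∧ (starRingEnd ℂ) z + h * I ∈ U}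
  have hVo : IsOpen V := by
    have c1 : Continuous fun z : ℂ => z + h * I := by fun_prop
    have c2 : Continuous fun z : ℂ => (starRingEnd ℂ) z + h * I :=
      Complex.continuous_conj.add continuous_const
    exact (hUo.preimage c1).inter (hUo.preimage c2)
  have hball : ∀ z ∈ Metric.closedBall (c : ℂ) R, z + h * I ∈ Metric.closedBall (c + h * I : ℂ) R ∧
      (starRingEnd ℂ) z + h * I ∈ Metric.closedBall (c + h * I : ℂ) R := by
    intro z hz
    rw [Metric.mem_closedBall, dist_eq_norm] at hz ⊢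
    rw [Metric.mem_closedBall, dist_eq_norm]
    constructor
    · rwa [add_sub_add_right_eq_sub]
    · rw [add_sub_add_right_eq_sub]
      have h2 : (starRingEnd ℂ) z - (c : ℂ) = (starRingEnd ℂ) (z - c) := by
        rw [map_sub, Complex.conj_ofReal]
      rw [h2, RCLike.norm_conj]
      exact hz
  have hFd : ∀ s ∈ V, DifferentiableAt ℂ F s := by
    intro s hs
    have d1 : DifferentiableAt ℂ (fun z => f (z + h * I)) s :=
      (hd _ hs.1).comp s ((differentiableAt_id).add_const _)
    have d2 : DifferentiableAt ℂ (fun z => f (z + h * I)) ((starRingEnd ℂ) s) :=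
      DifferentiableAt.comp (f := fun z : ℂ => z + h * I) ((starRingEnd ℂ) s) (hd _ hs.2)
        ((differentiableAt_id).add_const _)
    have d3 := d2.conj_conj
    rw [Complex.conj_conj] at d3
    exact (d1.add d3).div_const 2
  have hFM : ∀ s ∈ Metric.closedBall (c : ℂ) R, ‖F s‖ ≤ M := by
    intro s hs
    obtain ⟨h2, h3⟩ := hball s hs
    have h4 := hM _ h2
    have h5 := hM _ h3
    show ‖(f (s + h * I) + (starRingEnd ℂ) (f ((starRingEnd ℂ) s + h * I))) / 2‖ ≤ M
    rw [norm_div, Complex.norm_two]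
    have h6 := norm_add_le (f (s + h * I)) ((starRingEnd ℂ) (f ((starRingEnd ℂ) s + h * I)))
    rw [RCLike.norm_conj] at h6
    linarith
  have hFr : ∀ x : ℝ, F x = ((f (x + h * I)).re : ℂ) := by
    intro x
    show (f (x + h * I) + (starRingEnd ℂ) (f ((starRingEnd ℂ) (x : ℂ) + h * I))) / 2 = _
    rw [Complex.conj_ofReal, Complex.add_conj]
    push_cast
    ring
  have hF1 : 1 / 2 ≤ ‖F c‖ := by
    rw [hFr, Complex.norm_real, Real.norm_eq_abs]
    exact hf0.trans (le_abs_self _)
  have hFc : F c ≠ 0 := by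
    intro h2
    rw [h2, norm_zero] at hF1
    norm_num at hF1
  have hM0 : 1 / 2 ≤ M := hF1.trans (hFM c (Metric.mem_closedBall_self (hr.trans hrR).le))
  have hjn : ∀ S : Finset ℝ, (∀ x ∈ S, x ∈ Icc (c - r) c ∧ (f (x + h * I)).re = 0) →
      (S.card : ℝ) ≤ Real.log (2 * M) / Real.log (R / r) := by
    intro S hS
    have h2 := h1 F c r R M V (S.map ⟨fun x : ℝ => (x : ℂ), Complex.ofReal_injective⟩) hr hrR hVo
      (fun z hz => ⟨hUb (hball z hz).1, hUb (hball z hz).2⟩) hFd hFM hFc (fun z hz => by
        obtain ⟨x, hx, rfl⟩ := Finset.mem_map.1 hz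
        obtain ⟨h3, h4⟩ := hS x hx
        refine ⟨?_, ?_⟩
        · show (x : ℂ) ∈ _
          rw [Metric.mem_closedBall, dist_eq_norm, ← Complex.ofReal_sub, Complex.norm_real,
            Real.norm_eq_abs, abs_le]
          exact ⟨by linarith [h3.1], by linarith [h3.2]⟩
        · show F x = 0
          rw [hFr, h4, Complex.ofReal_zero])
    rw [Finset.card_map] at h2
    rw [le_div_iff₀ hlogR]
    refine h2.trans (Real.log_le_log (by positivity) ?_)
    rw [div_le_iff₀ (by linarith)]
    nlinarith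
  have hfin : {x : ℝ | x ∈ Icc (c - r) c ∧ (f (x + h * I)).re = 0}.Finite := by
    by_contra hcon
    obtain ⟨T, hT, hTc⟩ := Set.Infinite.exists_subset_card_eq hcon
      (⌊Real.log (2 * M) / Real.log (R / r)⌋₊ + 1)
    have h2 := hjn T (fun x hx => hT hx)
    rw [hTc] at h2
    have h3 := Nat.lt_floor_add_one (Real.log (2 * M) / Real.log (R / r))
    push_cast at h2
    linarith
  have hS := hjn hfin.toFinset (fun x hx => hfin.mem_toFinset.1 hx)
  have hin : ∀ x ∈ Icc (c - r) c, (x + h * I : ℂ) ∈ U := by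
    intro x hx
    refine hUb ?_
    rw [Metric.mem_closedBall, dist_eq_norm, add_sub_add_right_eq_sub, ← Complex.ofReal_sub,
      Complex.norm_real, Real.norm_eq_abs, abs_le]
    exact ⟨by linarith [hx.1], by linarith [hx.2]⟩
  have hline : Continuous fun x : ℝ => (x + h * I : ℂ) := by fun_prop
  have hcnt := bk_cnt (fun x => f (x + h * I)) (fun x => deriv f (x + h * I)) hfin.toFinset
    (c - r) c (by linarith) (fun x hx => by
      have h3 : HasDerivAt (fun x : ℝ => (x + h * I : ℂ)) 1 x := by
        simpa using (Complex.ofRealCLM.hasDerivAt (x := x)).add_const (h * I : ℂ)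
      have h4 := (hd _ (hin x hx)).hasDerivAt.comp x h3
      rw [mul_one] at h4
      exact h4)
    (((DifferentiableOn.deriv (fun z hz => (hd z hz).differentiableWithinAt) hUo).continuousOn).comp
      hline.continuousOn (fun x hx => hin x hx))
    hnz (fun x hx h2 => hfin.mem_toFinset.2 ⟨⟨hx.1.le, hx.2.le⟩, h2⟩)
  refine le_trans hcnt (mul_le_mul_of_nonneg_left (by linarith) Real.pi_pos.le)

end Pool.Agent.H77.CRZ
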