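import Pool.Agent.H65.CRZ.TL

/-!
# CRZ, row N2: the number of all zeros
-/

set_option autoImplicit false

open Set Filter Topology MeasureTheory Complex

namespace Pool.Agent.H77.CRZ

open Pool.Agent.H65.CRZ

theorem n2_re (F : ℂ → ℂ) (hF : Differentiable ℂ F) (hr : ∀ t : ℝ, (F (1 / 2 + t * I)).im = 0)
    (t : ℝ) : (deriv F (1 / 2 + t * I)).re = 0 := by
  have h1 : HasDerivAt (fun t : ℝ => F (1 / 2 + t * I)) (deriv F (1 / 2 + t * I) * I) t := by
    have h2 : HasDerivAt (fun t : ℝ => (1 / 2 + t * I : ℂ)) I t := by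
      have h3 := ((Complex.ofRealCLM.hasDerivAt (x := t)).mul_const I).const_add (1 / 2 : ℂ)
      simpa using h3
    exact (hF _).hasDerivAt.comp t h2
  have h2 : HasDerivAt (fun t : ℝ => (F (1 / 2 + t * I)).im) (deriv F (1 / 2 + t * I) * I).im t :=
    Complex.imCLM.hasFDerivAt.comp_hasDerivAt t h1
  have h3 : HasDerivAt (fun t : ℝ => (F (1 / 2 + t * I)).im) 0 t := by
    have : (fun t : ℝ => (F (1 / 2 + t * I)).im) = fun _ => 0 := funext hr
    rw [this]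
    exact hasDerivAt_const t 0
  have h4 := h2.unique h3
  simpa using h4

theorem pf_N2 (h1 : T_AG) : T_N2 := by
  intro F b t₁ t₂ hb ht hF hr hx ht'
  obtain ⟨hfin, k, hk, hk1, hk2⟩ := h1 F (1 / 2) b t₁ t₂ univ hb ht isOpen_univ
    isPreconnected_univ (fun s _ => hF s) (fun s _ _ _ _ => mem_univ s)
    (fun x hxx => hx x hxx) (fun t h => ht' t h)
  have h0 : ∀ t ∈ Icc t₁ t₂, F (1 / 2 + t * I) ≠ 0 → k t = 0 := by
    intro t h2 h3
    have h4 : (((1 / 2 : ℝ) : ℂ) + t * I) = 1 / 2 + t * I := by push_cast; ring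
    rw [hk1 t h2 (by rw [h4]; exact h3), h4, ld]
    have h5 : F (1 / 2 + t * I) = ((F (1 / 2 + t * I)).re : ℂ) := by
      apply Complex.ext
      · exact (Complex.ofReal_re _).symm
      · exact (hr t).trans (Complex.ofReal_im _).symm
    rw [h5, Complex.div_ofReal_re, n2_re F hF hr t, zero_div]
  have hZ : {t : ℝ | t ∈ Icc t₁ t₂ ∧ F (1 / 2 + t * I) = 0}.Finite := by
    refine Set.Finite.of_finite_image (f := fun t : ℝ => (1 / 2 + t * I : ℂ)) (hfin.subset ?_) ?_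
    · rintro _ ⟨t, ⟨⟨h2, h3⟩, h4⟩, rfl⟩
      refine ⟨by simp, by simp; linarith, by simpa using h2, by simpa using h3, h4⟩
    · intro s _ t _ h
      have := congrArg Complex.im h
      simpa using this
  have hint : (∫ t in t₁..t₂, k t) = 0 := by
    rw [intervalIntegral.integral_zero_ae]
    have h2 : ∀ᵐ t : ℝ, t ∉ {t : ℝ | t ∈ Icc t₁ t₂ ∧ F (1 / 2 + t * I) = 0} :=
      measure_eq_zero_iff_ae_notMem.1 (hZ.measure_zero volume)
    filter_upwards [h2] with t h3 h4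
    rw [uIoc_of_le ht.le] at h4
    have h5 : t ∈ Icc t₁ t₂ := ⟨h4.1.le, h4.2⟩
    exact h0 t h5 (fun h6 => h3 ⟨h5, h6⟩)
  rw [hint] at hk2
  have h9 : rp F (1 / 2) b t₁ t₂ = Real.pi * (2 * zc F {ρ : ℂ | 1 / 2 < ρ.re ∧ ρ.re < b ∧
      t₁ < ρ.im ∧ ρ.im < t₂} + zc F {ρ : ℂ | ρ.re = 1 / 2 ∧ t₁ < ρ.im ∧ ρ.im < t₂}) := by
    linarith
  rw [h9, ← mul_assoc, one_div_mul_cancel Real.pi_pos.ne', one_mul]

end Pool.Agent.H77.CRZ
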